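import Pool.Agent.R503.PS.Final

/-!
# Pairs `(c₁, c₂)` with given kernel of the discriminant
-/

set_option autoImplicit false

open Finset Filter Topology

namespace Pool.Agent.R503.HD

open Pool.Agent.R503.PS

lemma card_le_of_diff (S : Finset ℤ) (L : ℝ) (hL : 0 ≤ L)
    (h : ∀ a ∈ S, ∀ b ∈ S, a < b → ((b : ℝ) - a) ≤ L) : (S.card : ℝ) ≤ L + 1 := by
  rcases S.eq_empty_or_nonempty with he | hne
  · rw [he]; simp; linarith
  set m := S.min' hne with hm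
  have hmS : m ∈ S := S.min'_mem hne
  have hsub : S ⊆ Icc m (m + ⌊L⌋) := by
    intro b hb
    rw [mem_Icc]
    have h1 : m ≤ b := S.min'_le b hb
    refine ⟨h1, ?_⟩
    rcases eq_or_lt_of_le h1 with h2 | h2
    · rw [← h2]
      have := Int.floor_nonneg.2 hL
      linarith
    · have h3 := h m hmS b hb h2
      have h4 : b - m ≤ ⌊L⌋ := by
        rw [Int.le_floor]
        push_cast
        exact h3
      linarith
  have h1 := card_le_card hsub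
  rw [Int.card_Icc] at h1
  have h2 : (m + ⌊L⌋ + 1 - m).toNat = (⌊L⌋ + 1).toNat := by congr 1; ring
  rw [h2] at h1
  have h3 : ((⌊L⌋ + 1).toNat : ℤ) = ⌊L⌋ + 1 := Int.toNat_of_nonneg (by
    have := Int.floor_nonneg.2 hL
    linarith)
  have h4 : (((⌊L⌋ + 1).toNat : ℕ) : ℝ) = (⌊L⌋ : ℝ) + 1 := by exact_mod_cast h3
  have h5 : (S.card : ℝ) ≤ (((⌊L⌋ + 1).toNat : ℕ) : ℝ) := by exact_mod_cast h1
  have h6 := Int.floor_le L
  linarith

/-- the `c₁` for given `u`, `d`, `f` -/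
noncomputable def Sf (X : ℕ) (t : ℤ) : Finset ℤ :=
  (Icc 1 ((X : ℤ) + 1)).filter fun c => ∃ c₂ ∈ Icc (1 : ℤ) X, c ^ 2 - 4 * c₂ = t

lemma Sf_card {X d f : ℕ} {u : ℤ} (hu : u = 1 ∨ u = -1 ∨ u = 2 ∨ u = -2) {q : ℝ} (hq : 0 < q)
    (hqd : q ^ 2 < d) (hf : 0 < f) (hX : 1 ≤ X) :
    ((Sf X (u * d * (f : ℤ) ^ 2)).card : ℝ) ≤ 4 * X / (q * f) + 1 := by
  classical
  have hf0 : (0 : ℝ) < f := by exact_mod_cast hf
  have hX0 : (0 : ℝ) < X := by exact_mod_cast hX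
  apply card_le_of_diff _ _ (by positivity)
  intro a ha b hb hab
  unfold Sf at ha hb
  rw [mem_filter, mem_Icc] at ha hb
  obtain ⟨⟨a1, a2⟩, c, hc, hca⟩ := ha
  obtain ⟨⟨b1, b2⟩, e, he, heb⟩ := hb
  rw [mem_Icc] at hc he
  set r : ℝ := q * f with hr
  have hr0 : 0 < r := by positivity
  have hrr : r ^ 2 < d * (f : ℝ) ^ 2 := by
    rw [hr, mul_pow]
    exact mul_lt_mul_of_pos_right hqd (by positivity)
  rw [le_div_iff₀ hr0]
  have ra : (1 : ℝ) ≤ a := by exact_mod_cast a1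
  have rb : (1 : ℝ) ≤ b := by exact_mod_cast b1
  have rab : (a : ℝ) < b := by exact_mod_cast hab
  have rc : (1 : ℝ) ≤ c := by exact_mod_cast hc.1
  have re : (e : ℝ) ≤ X := by exact_mod_cast he.2
  have ea : (a : ℝ) ^ 2 - 4 * c = u * d * (f : ℝ) ^ 2 := by exact_mod_cast hca
  have eb : (b : ℝ) ^ 2 - 4 * e = u * d * (f : ℝ) ^ 2 := by exact_mod_cast heb
  have hdf : (0 : ℝ) ≤ d * (f : ℝ) ^ 2 := by positivity
  have hcase : (1 : ℝ) ≤ u ∨ (u : ℝ) ≤ -1 := by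
    rcases hu with rfl | rfl | rfl | rfl <;> norm_num
  rcases hcase with hp | hn
  · have h1 : d * (f : ℝ) ^ 2 ≤ u * d * (f : ℝ) ^ 2 := by nlinarith
    have h2 : r < a := by
      apply lt_of_pow_lt_pow_left₀ 2 (by linarith)
      linarith
    have h3 : ((b : ℝ) - a) * r ≤ (b - a) * (b + a) :=
      mul_le_mul_of_nonneg_left (by linarith) (by linarith)
    have h4 : ((b : ℝ) - a) * (b + a) = 4 * (e - c) := by linear_combination eb - ea
    linarith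
  · have h1 : u * d * (f : ℝ) ^ 2 ≤ -(d * (f : ℝ) ^ 2) := by nlinarith
    have h2 : (b : ℝ) ^ 2 + r ^ 2 ≤ 4 * X := by linarith
    have h3 : ((b : ℝ) - a) * r ≤ b * r := mul_le_mul_of_nonneg_right (by linarith) hr0.le
    nlinarith [sq_nonneg ((b : ℝ) - r)]

/-- the size of `f` -/
lemma Sf_f {X d f : ℕ} {u : ℤ} (hu : u = 1 ∨ u = -1 ∨ u = 2 ∨ u = -2) {q : ℝ} (hq : 0 < q)
    (hqd : q ^ 2 < d) (hf : 0 < f) {a : ℤ} (ha : a ∈ Sf X (u * d * (f : ℤ) ^ 2)) :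
    q * f ≤ X + 1 := by
  have hf0 : (0 : ℝ) < f := by exact_mod_cast hf
  unfold Sf at ha
  rw [mem_filter, mem_Icc] at ha
  obtain ⟨⟨a1, a2⟩, c, hc, hca⟩ := ha
  rw [mem_Icc] at hc
  set r : ℝ := q * f with hr
  have hr0 : 0 < r := by positivity
  have hrr : r ^ 2 < d * (f : ℝ) ^ 2 := by
    rw [hr, mul_pow]
    exact mul_lt_mul_of_pos_right hqd (by positivity)
  have ra : (1 : ℝ) ≤ a := by exact_mod_cast a1
  have ra' : (a : ℝ) ≤ X + 1 := by exact_mod_cast a2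
  have rc : (1 : ℝ) ≤ c := by exact_mod_cast hc.1
  have rc' : (c : ℝ) ≤ X := by exact_mod_cast hc.2
  have ea : (a : ℝ) ^ 2 - 4 * c = u * d * (f : ℝ) ^ 2 := by exact_mod_cast hca
  have hdf : (0 : ℝ) ≤ d * (f : ℝ) ^ 2 := by positivity
  have hcase : (1 : ℝ) ≤ u ∨ (u : ℝ) ≤ -1 := by
    rcases hu with rfl | rfl | rfl | rfl <;> norm_num
  have hX0 : (0 : ℝ) ≤ X := Nat.cast_nonneg _
  rcases hcase with hp | hn
  · have h1 : d * (f : ℝ) ^ 2 ≤ u * d * (f : ℝ) ^ 2 := by nlinarith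
    have h2 : r < a := by
      apply lt_of_pow_lt_pow_left₀ 2 (by linarith)
      linarith
    linarith
  · have h1 : u * d * (f : ℝ) ^ 2 ≤ -(d * (f : ℝ) ^ 2) := by nlinarith
    have h2 : r ^ 2 ≤ 4 * X := by nlinarith
    nlinarith [sq_nonneg ((X : ℝ) - 1)]

lemma harm' (F : ℕ) : ∑ f ∈ Icc 1 F, 1 / (f : ℝ) ≤ 1 + Real.log F := by
  have h5 := harmonic_le_one_add_log F
  rw [harmonic_eq_sum_Icc] at h5
  push_cast at h5
  simpa [one_div] using h5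

/-- the exceptional pairs -/
theorem pairs_card (A U : ℕ) : ∀ᶠ x : ℕ in atTop, ∀ X : ℕ, 1 ≤ X → X ≤ (x + 1) ^ A →
    ∀ S : Finset (ℤ × ℤ), (∀ c ∈ S, 1 ≤ c.1 ∧ c.1 ≤ c.2 + 1 ∧ 1 ≤ c.2 ∧ c.2 ≤ X ∧
      ¬ IsSquare (c.1 ^ 2 - 4 * c.2) ∧ Sq (x + 1) (c.1 ^ 2 - 4 * c.2)) →
      (S.card : ℝ) * Real.log x ^ U ≤ X := by
  classical
  obtain ⟨A', hA'⟩ : ∃ A' : ℕ, A' = 2 * A + 3 := ⟨_, rfl⟩
  obtain ⟨K, hK⟩ : ∃ K : ℕ, K = 3 * (2 * A' + 1) + 1 := ⟨_, rfl⟩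
  obtain ⟨B, hB⟩ : ∃ B : ℕ, B = K + U + 3 := ⟨_, rfl⟩
  filter_upwards [DD_card A' (2 * B), struct A' (2 * B), log_large (40 + 16 * A),
    eventually_ge_atTop 2] with x hDD hst hl hx2 X hX1 hXA S hS
  rw [← hK] at hDD
  obtain ⟨l, hldef⟩ : ∃ l : ℝ, l = Real.log x := ⟨_, rfl⟩
  rw [← hldef] at hDD hl ⊢
  have hA0 : (0 : ℝ) ≤ A := Nat.cast_nonneg _
  have hl0 : 0 < l := by linarith
  obtain ⟨q, hq⟩ : ∃ q : ℝ, q = l ^ B := ⟨_, rfl⟩
  have hq0 : 0 < q := by rw [hq]; positivity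
  have hq1 : 1 ≤ q := by rw [hq]; exact one_le_pow₀ (by linarith)
  have hXr : (1 : ℝ) ≤ X := by exact_mod_cast hX1
  obtain ⟨F, hF⟩ : ∃ F : ℕ, F = ⌊((X : ℝ) + 1) / q⌋₊ := ⟨_, rfl⟩
  set T : Finset ((ℤ × ℕ) × ℕ) := (({1, -1, 2, -2} : Finset ℤ) ×ˢ DD x A' (2 * B)) ×ˢ Icc 1 F with hT
  have hsub : S ⊆ T.biUnion fun t => (Sf X (t.1.1 * t.1.2 * (t.2 : ℤ) ^ 2)).image
      fun c => (c, (c ^ 2 - t.1.1 * t.1.2 * (t.2 : ℤ) ^ 2) / 4) := by
    rintro ⟨c₁, c₂⟩ hc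
    obtain ⟨h1, h2, h3, h4, h5, h6⟩ := hS _ hc
    simp only at h1 h2 h3 h4 h5 h6
    have hDn : (c₁ ^ 2 - 4 * c₂).natAbs ≤ (x + 1) ^ A' := by
      have k1 : |c₁ ^ 2 - 4 * c₂| ≤ 8 * (X : ℤ) ^ 2 := by
        have hXz : (1 : ℤ) ≤ X := by exact_mod_cast hX1
        have k2 : c₁ ≤ X + 1 := by linarith
        rw [abs_le]
        constructor <;> nlinarith
      have k3 : ((c₁ ^ 2 - 4 * c₂).natAbs : ℤ) ≤ (8 * X ^ 2 : ℕ) := by
        rw [Int.natCast_natAbs]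
        push_cast
        exact k1
      have k4 : (c₁ ^ 2 - 4 * c₂).natAbs ≤ 8 * X ^ 2 := by exact_mod_cast k3
      refine k4.trans ?_
      have k5 : 8 ≤ (x + 1) ^ 3 := by
        have : 3 ^ 3 ≤ (x + 1) ^ 3 := Nat.pow_le_pow_left (by omega) 3
        omega
      calc 8 * X ^ 2 ≤ (x + 1) ^ 3 * ((x + 1) ^ A) ^ 2 :=
            Nat.mul_le_mul k5 (Nat.pow_le_pow_left hXA 2)
        _ = (x + 1) ^ A' := by rw [hA', ← pow_mul, ← pow_add]; ring_nf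
    obtain ⟨u, d, f, hu, hDe, hodd, hsqf, hf0, hfew, hld⟩ := hst _ h5 hDn h6
    have hqd : q ^ 2 < d := by
      rw [hq, ← pow_mul, mul_comm B 2, hldef]
      exact hld
    have hmem : c₁ ∈ Sf X (u * d * (f : ℤ) ^ 2) := by
      unfold Sf
      rw [mem_filter, mem_Icc]
      exact ⟨⟨h1, by linarith⟩, c₂, mem_Icc.2 ⟨h3, h4⟩, hDe⟩
    have hfF : f ≤ F := by
      rw [hF]
      apply Nat.le_floor
      rw [le_div_iff₀ hq0]
      have := Sf_f hu hq0 hqd hf0 hmem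
      linarith
    have hd0 : 0 < d := Nat.pos_of_ne_zero hsqf.ne_zero
    have hua : 1 ≤ u.natAbs := by
      rcases hu with rfl | rfl | rfl | rfl <;> decide
    have hdle : d ≤ (x + 1) ^ A' := by
      refine le_trans ?_ hDn
      rw [hDe, Int.natAbs_mul, Int.natAbs_mul, Int.natAbs_pow, Int.natAbs_natCast,
        Int.natAbs_natCast]
      calc d = 1 * d * 1 := by ring
        _ ≤ u.natAbs * d * f ^ 2 :=
          Nat.mul_le_mul (Nat.mul_le_mul_right _ hua) (Nat.one_le_pow _ _ hf0)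
    rw [mem_biUnion]
    refine ⟨((u, d), f), ?_, ?_⟩
    · rw [hT, mem_product, mem_product, mem_Icc]
      refine ⟨⟨by simpa using hu, ?_⟩, hf0, hfF⟩
      unfold DD
      rw [mem_filter, mem_range]
      exact ⟨Nat.lt_succ_of_le hdle, hodd, hsqf, hfew, hld⟩
    · rw [mem_image]
      refine ⟨c₁, hmem, ?_⟩
      simp only [Prod.mk.injEq, true_and]
      have : c₁ ^ 2 - u * d * (f : ℤ) ^ 2 = c₂ * 4 := by linarith
      rw [this]
      exact Int.mul_ediv_cancel _ (by norm_num)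
  have hcard : (S.card : ℝ) ≤ ∑ t ∈ T, ((Sf X (t.1.1 * t.1.2 * (t.2 : ℤ) ^ 2)).card : ℝ) := by
    have h1 : S.card ≤ ∑ t ∈ T, (Sf X (t.1.1 * t.1.2 * (t.2 : ℤ) ^ 2)).card :=
      (card_le_card hsub).trans (card_biUnion_le.trans (sum_le_sum fun t _ => card_image_le))
    exact_mod_cast h1
  have hterm : ∀ t ∈ T, ((Sf X (t.1.1 * t.1.2 * (t.2 : ℤ) ^ 2)).card : ℝ) ≤
      4 * X / (q * (t.2 : ℝ)) + 1 := by
    rintro ⟨⟨u, d⟩, f⟩ ht
    rw [hT, mem_product, mem_product, mem_Icc] at ht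
    obtain ⟨⟨hu, hd⟩, hf⟩ := ht
    simp only at hu hd hf ⊢
    unfold DD at hd
    rw [mem_filter] at hd
    have hqd : q ^ 2 < d := by
      rw [hq, ← pow_mul, mul_comm B 2, hldef]
      exact hd.2.2.2.2
    exact Sf_card (by simpa using hu) hq0 hqd hf.1 hX1
  have h1 := hcard.trans (sum_le_sum hterm)
  have h2 : ∑ t ∈ T, (4 * (X : ℝ) / (q * (t.2 : ℝ)) + 1) =
      ((({1, -1, 2, -2} : Finset ℤ) ×ˢ DD x A' (2 * B)).card : ℝ) *
        (4 * X / q * (∑ f ∈ Icc 1 F, 1 / (f : ℝ)) + F) := by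
    rw [hT, sum_product]
    simp only
    rw [sum_const, nsmul_eq_mul]
    congr 1
    rw [sum_add_distrib, sum_const, Nat.card_Icc, nsmul_eq_mul, mul_one, Nat.add_sub_cancel, mul_sum]
    congr 1
    refine sum_congr rfl fun f _ => ?_
    rw [div_mul_div_comm, mul_one]
  rw [h2] at h1
  have h3 : ((({1, -1, 2, -2} : Finset ℤ) ×ˢ DD x A' (2 * B)).card : ℝ) ≤ 4 * l ^ K := by
    rw [card_product]
    push_cast
    have : (({1, -1, 2, -2} : Finset ℤ).card : ℝ) = 4 := by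
      have : ({1, -1, 2, -2} : Finset ℤ).card = 4 := by decide
      rw [this]; norm_num
    rw [this]
    linarith
  have hFX : (F : ℝ) ≤ 2 * X / q := by
    rw [hF]
    refine (Nat.floor_le (by positivity)).trans ?_
    exact div_le_div_of_nonneg_right (by linarith) hq0.le
  have hlogF : Real.log F ≤ (A + 1) * (2 * l) := by
    rcases Nat.eq_zero_or_pos F with h0 | h0
    · rw [h0, Nat.cast_zero, Real.log_zero]; positivity
    have hF0 : (0 : ℝ) < F := by exact_mod_cast h0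
    have k1 : (F : ℝ) ≤ 2 * X := hFX.trans (div_le_self (by positivity) hq1)
    have k2 : (2 : ℝ) * X ≤ ((x : ℝ) ^ 2) ^ (A + 1) := by
      have k3 : 2 * X ≤ (x ^ 2) ^ (A + 1) := by
        have k4 : x + 1 ≤ x ^ 2 := by nlinarith
        calc 2 * X ≤ (x + 1) * (x + 1) ^ A := Nat.mul_le_mul (by omega) hXA
          _ = (x + 1) ^ (A + 1) := by ring
          _ ≤ _ := Nat.pow_le_pow_left k4 _
      exact_mod_cast k3
    calc Real.log F ≤ Real.log (((x : ℝ) ^ 2) ^ (A + 1)) := Real.log_le_log hF0 (k1.trans k2)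
      _ = (A + 1) * (2 * l) := by
        rw [Real.log_pow, Real.log_pow, hldef]; push_cast; ring
  have hH : ∑ f ∈ Icc 1 F, 1 / (f : ℝ) ≤ l ^ 2 / 8 := by
    refine (harm' F).trans ?_
    have : 1 + (A + 1) * (2 * l) ≤ l ^ 2 / 8 := by
      have k1 : 1 ≤ l := by linarith
      have k2 : (16 * (A : ℝ) + 24) * l ≤ l * l := mul_le_mul_of_nonneg_right (by linarith) hl0.le
      have k3 : 8 * (1 + (A + 1) * (2 * l)) ≤ (16 * (A : ℝ) + 24) * l := by linarith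
      linarith
    linarith
  obtain ⟨G, hG⟩ : ∃ G : ℝ, G = ∑ f ∈ Icc 1 F, 1 / (f : ℝ) := ⟨_, rfl⟩
  rw [← hG] at h1 hH
  have hG0 : 0 ≤ G := by rw [hG]; positivity
  have h4 : 4 * X / q * G + F ≤ X / q * l ^ 2 := by
    have k1 : 4 * X / q * G ≤ 4 * X / q * (l ^ 2 / 8) :=
      mul_le_mul_of_nonneg_left hH (by positivity)
    have k2 : 4 * X / q * (l ^ 2 / 8) = X / q * l ^ 2 / 2 := by ring
    have k3 : 2 * X / q = X / q * 2 := by ring
    have k4 : X / q * 2 ≤ X / q * (l ^ 2 / 2) :=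
      mul_le_mul_of_nonneg_left (by nlinarith) (by positivity)
    linarith
  have h5 : (S.card : ℝ) ≤ 4 * l ^ K * (X / q * l ^ 2) :=
    h1.trans (mul_le_mul h3 h4 (by positivity) (by positivity))
  have hlU : 0 ≤ l ^ U := by positivity
  calc (S.card : ℝ) * l ^ U ≤ 4 * l ^ K * (X / q * l ^ 2) * l ^ U :=
        mul_le_mul_of_nonneg_right h5 hlU
    _ = 4 * X * (l ^ (K + U + 2) / q) := by
        rw [pow_add, pow_add]; ring
    _ = X * (4 / l) := by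
        rw [hq, hB, show K + U + 3 = (K + U + 2) + 1 by ring, pow_succ l (K + U + 2)]
        field_simp
    _ ≤ X * 1 := by
        refine mul_le_mul_of_nonneg_left ?_ (by positivity)
        rw [div_le_one hl0]
        linarith
    _ = X := mul_one _

end Pool.Agent.R503.HD
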