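import Pool.Agent.R503.HD.Cnt

/-!
# Codimension two: almost all degrees
-/

set_option autoImplicit false

open Finset Filter Topology

namespace Pool.Agent.R503.HD

open Pool.Agent.R920.CH Polynomial Pool.Agent.R503.PS

/-- numerically possible canonical class `k` and degree `d` -/
def Poss (N : ℕ) (k d : ℤ) : Prop :=
  0 < d ∧ 0 < k + N + 1 ∧ k + N + 1 ≤ d + 1 ∧ RiemannRoch N (X ^ 2 - C (k + N + 1) * X + C d)

/-- those of a complete intersection of hypersurfaces of degrees `a` and `b` -/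
def CI (N : ℕ) (k d : ℤ) : Prop := ∃ a b : ℤ, 0 < a ∧ 0 < b ∧ k = a + b - N - 1 ∧ d = a * b

theorem pairs (A U : ℕ) : ∃ N₀ : ℕ, ∀ N : ℕ, N₀ ≤ N → ∀ X : ℕ, 1 ≤ X → X ≤ N ^ A →
    ∀ S : Finset (ℤ × ℤ), (∀ s ∈ S, Poss N s.1 s.2 ∧ s.2 ≤ X ∧ ¬ CI N s.1 s.2) →
      (S.card : ℝ) * Real.log N ^ U ≤ X := by
  classical
  obtain ⟨x₀, hx₀⟩ := eventually_atTop.1 ((pairs_card A (U + 1)).and
    ((log_large (2 ^ U)).and (eventually_ge_atTop 2)))
  refine ⟨x₀ + 1, fun n hn Y hY hYn S hS => ?_⟩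
  obtain ⟨x, rfl⟩ : ∃ x, n = x + 1 := ⟨n - 1, by omega⟩
  obtain ⟨hcount, hl, hx2⟩ := hx₀ x (by omega)
  set l : ℝ := Real.log x with hldef
  have hl0 : 0 < l := lt_of_lt_of_le (by positivity) hl
  have h1 := hcount Y hY hYn (S.image fun s => (s.1 + (x + 1 : ℕ) + 1, s.2)) (by
    intro c hc
    rw [mem_image] at hc
    obtain ⟨⟨k, d⟩, hs, rfl⟩ := hc
    obtain ⟨⟨h1, h2, h3, h4⟩, h5, h6⟩ := hS _ hs
    simp only at h1 h2 h3 h4 h5 h6 ⊢
    refine ⟨by linarith, h3, by linarith, h5, ?_, fun p hp hp2 hpn => square_mod h4 p hp hp2 hpn⟩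
    intro hsq
    obtain ⟨a, b, hab1, hab2⟩ := split_of_square hsq
    simp only at hab1 hab2
    apply h6
    have hab : 0 < a * b := by rw [← hab2]; exact h1
    have hs : 0 < a + b := by rw [← hab1]; exact h2
    rcases mul_pos_iff.1 hab with ⟨ha, hb⟩ | ⟨ha, hb⟩
    · refine ⟨a, b, ha, hb, ?_, hab2⟩
      push_cast at hab1 ⊢
      linarith
    · linarith)
  rw [card_image_of_injective _ (by
    rintro ⟨a, b⟩ ⟨a', b'⟩ h
    simp only [Prod.mk.injEq] at h ⊢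
    exact ⟨by linarith [h.1], h.2⟩)] at h1
  have hlog : Real.log ((x + 1 : ℕ) : ℝ) ≤ 2 * l := by
    have h2 : (2 : ℝ) ≤ x := by exact_mod_cast hx2
    rw [hldef]
    have h3 : 2 * Real.log (x : ℝ) = Real.log ((x : ℝ) ^ 2) := by rw [Real.log_pow]; norm_num
    rw [h3]
    apply Real.log_le_log
    · positivity
    · push_cast
      nlinarith
  have hlog0 : 0 ≤ Real.log ((x + 1 : ℕ) : ℝ) := by
    apply Real.log_nonneg
    push_cast
    have : (0 : ℝ) ≤ x := Nat.cast_nonneg _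
    linarith
  calc (S.card : ℝ) * Real.log ((x + 1 : ℕ) : ℝ) ^ U ≤ S.card * (2 * l) ^ U :=
        mul_le_mul_of_nonneg_left (pow_le_pow_left₀ hlog0 hlog U) (Nat.cast_nonneg _)
    _ = S.card * l ^ U * 2 ^ U := by rw [mul_pow]; ring
    _ ≤ S.card * l ^ U * l := mul_le_mul_of_nonneg_left hl (by positivity)
    _ = S.card * l ^ (U + 1) := by rw [pow_succ]; ring
    _ ≤ _ := h1

/-- a prime degree -/
lemma prime_CI {N p : ℕ} (hp : p.Prime) {k : ℤ} (h : CI N k p) : k = p - N := by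
  obtain ⟨a, b, ha, hb, hk, hab⟩ := h
  have h1 : p = a.natAbs * b.natAbs := by
    have := congrArg Int.natAbs hab
    rw [Int.natAbs_mul, Int.natAbs_natCast] at this
    exact this
  have ha' : (a.natAbs : ℤ) = a := Int.natAbs_of_nonneg ha.le
  have hb' : (b.natAbs : ℤ) = b := Int.natAbs_of_nonneg hb.le
  have h2 : a.natAbs ∣ p := ⟨_, h1⟩
  rcases (Nat.dvd_prime hp).1 h2 with h3 | h3
  · rw [h3] at ha' h1
    rw [one_mul] at h1
    rw [hk, ← ha', ← hb', ← h1]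
    push_cast
    ring
  · have h4 : b.natAbs = 1 := by
      rw [h3] at h1
      have : p * 1 = p * b.natAbs := by rw [mul_one]; exact h1
      exact (Nat.eq_of_mul_eq_mul_left hp.pos this).symm
    rw [hk, ← ha', ← hb', h3, h4]
    push_cast
    ring

open Classical in
theorem degrees (A U : ℕ) : ∃ N₀ : ℕ, ∀ N : ℕ, N₀ ≤ N → ∀ X : ℕ, 1 ≤ X → X ≤ N ^ A →
    (((Icc 1 X).filter fun d : ℕ => ∃ k : ℤ, Poss N k d ∧ ¬ CI N k d).card : ℝ) *
        Real.log N ^ U ≤ X ∧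
      (((Icc 1 X).filter fun p : ℕ => p.Prime ∧ ∃ k : ℤ, Poss N k p ∧ k ≠ p - N).card : ℝ) *
        Real.log N ^ U ≤ X := by
  obtain ⟨N₀, h⟩ := pairs A U
  refine ⟨N₀, fun N hN X hX hXN => ?_⟩
  have h1 : (((Icc 1 X).filter fun d : ℕ => ∃ k : ℤ, Poss N k d ∧ ¬ CI N k d).card : ℝ) *
      Real.log N ^ U ≤ X := by
    set F := (Icc 1 X).filter fun d : ℕ => ∃ k : ℤ, Poss N k d ∧ ¬ CI N k d with hF
    have hex : ∀ d ∈ F, ∃ k : ℤ, Poss N k d ∧ ¬ CI N k d := fun d hd => (mem_filter.1 hd).2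
    choose! k hk using hex
    have h2 := h N hN X hX hXN (F.image fun d : ℕ => (k d, (d : ℤ))) (by
      intro s hs
      rw [mem_image] at hs
      obtain ⟨d, hd, rfl⟩ := hs
      refine ⟨(hk d hd).1, ?_, (hk d hd).2⟩
      have := (mem_Icc.1 (mem_filter.1 hd).1).2
      simp only
      exact_mod_cast this)
    rw [card_image_of_injective _ (by
      intro a b hab
      simp only [Prod.mk.injEq] at hab
      exact_mod_cast hab.2)] at h2
    exact h2
  refine ⟨h1, le_trans ?_ h1⟩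
  have hlog : 0 ≤ Real.log (N : ℝ) := Real.log_natCast_nonneg N
  refine mul_le_mul_of_nonneg_right ?_ (pow_nonneg hlog U)
  have hsub : ((Icc 1 X).filter fun p : ℕ => p.Prime ∧ ∃ k : ℤ, Poss N k p ∧ k ≠ p - N) ⊆
      (Icc 1 X).filter fun d : ℕ => ∃ k : ℤ, Poss N k d ∧ ¬ CI N k d := by
    intro p hp
    rw [mem_filter] at hp ⊢
    obtain ⟨h2, h3, k, h4, h5⟩ := hp
    exact ⟨h2, k, h4, fun h6 => h5 (prime_CI h3 h6)⟩
  exact_mod_cast card_le_card hsub

end Pool.Agent.R503.HD
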